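import Pool.Agent.helper84.LQ.SpecH

set_option autoImplicit false

/-!
# Row lq:UPQ (MP_07c750_an): the uniform part
-/

open scoped MatrixGroups ContDiff Topology UpperHalfPlane ComplexConjugate
open UpperHalfPlane MeasureTheory Filter Set

namespace Pool.Agent.LP

open Pool.Agent.RS
open Pool.Agent.MS (bq BB BA SF pf)
open Pool.Agent.HV (FW)
open Pool.Agent.EN (XG MG mkX mkM fl pr)
open Pool.Agent.ER (Low LowJ)

noncomputable section

/-- the set where the time average is small is covered by few boxes -/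
theorem UPQ_cov (hLDB : LDB_stmt) (hXFL : EN.XFL_stmt) (Γ : Subgroup SL(2, ℝ)) (F : Set ℍ) (μ : Measure (XG Γ)) (V : MG Γ → ℝ) (f : XG Γ → ℝ) (M ε : ℝ)
    (hΓ : QU.SurfaceGroup Γ) (hF : QU.NiceDom Γ F) (hμ : IsProbabilityMeasure μ) (hVc : Continuous V)
    (hM : M = (∫ z in F, V (mkM Γ z)) / (volume F).toReal) (hε : 0 < ε)
    (hfi : ∀ n : ℕ, ∀ᵐ x ∂μ, f (fl Γ n x) = f x)
    (hfc : ∀ ε δ : ℝ, 0 < ε → 0 < δ → ∃ n0 : ℕ, ∀ n : ℕ, n0 ≤ n → μ.real {x | ε * n ≤ |(∫ t in (0 : ℝ)..n, V (pr Γ (fl Γ t x))) - f x * n|} ≤ δ) :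
    ∃ c : ℝ, 0 < c ∧ c ≤ 1 ∧ CO Γ μ {x | f x < M - ε} (1 - c) := by
  obtain ⟨-, -, -, -, hsur, hmc, -, -, hfl, hpr, -, hmM⟩ := hXFL Γ
  have hinv : QU.Inv Γ (fun z => V (mkM Γ z)) := by
    refine ⟨hVc.comp hmc, fun γ z => ?_⟩
    have h1 : mkM Γ z = mkM Γ (γ • z) := (hmM z (γ • z)).2 ⟨γ, rfl⟩
    show V (mkM Γ (γ • z)) = V (mkM Γ z)
    rw [h1]
  obtain ⟨c, hc, hc1, hbox⟩ := hLDB Γ F (fun z => V (mkM Γ z)) (ε / 2) hΓ hF hinv (by linarith)
  refine ⟨c, hc, hc1, ?_, ?_⟩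
  · intro n
    have h1 : μ {x | ¬ f (fl Γ n x) = f x} = 0 := hfi n
    have h2 : {x | f x < M - ε} \ (fl Γ n) ⁻¹' {x | f x < M - ε} ⊆ {x | ¬ f (fl Γ n x) = f x} := by
      rintro x ⟨hx1, hx2⟩ hx3
      apply hx2
      show f (fl Γ n x) < M - ε
      rw [hx3]
      exact hx1
    rw [Measure.real, measure_mono_null h2 h1]
    rfl
  · intro a η δ ha hη hδ
    obtain ⟨n0, hn0⟩ := hbox a ha
    obtain ⟨n1, hn1⟩ := hfc (ε / 2) δ (by linarith) hδ
    refine ⟨max n0 n1, fun n hn => ?_⟩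
    obtain ⟨A, hA, hA2⟩ := hn0 n (le_trans (le_max_left _ _) hn)
    refine ⟨A, ?_, ?_⟩
    · refine hA.trans (Real.exp_le_exp.2 ?_)
      have : (0 : ℝ) ≤ n := Nat.cast_nonneg n
      nlinarith
    · refine le_trans (measureReal_mono ?_ (measure_ne_top μ _)) (hn1 n (le_trans (le_max_right _ _) hn))
      rintro x ⟨hx1, hx2⟩
      obtain ⟨g, rfl⟩ := hsur x
      have h1 : (∫ t in (0 : ℝ)..n, V (pr Γ (fl Γ t (mkX Γ g)))) = ∫ t in (0 : ℝ)..n, V (mkM Γ ((g * aM t) • I)) := by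
        apply intervalIntegral.integral_congr
        intro t _
        show V (pr Γ (fl Γ t (mkX Γ g))) = V (mkM Γ ((g * aM t) • I))
        rw [hfl, hpr]
      have h2 : ¬ (∫ t in (0 : ℝ)..n, V (mkM Γ ((g * aM t) • I))) ≤ ((∫ z in F, V (mkM Γ z)) / (volume F).toReal - ε / 2) * n := fun h => hx2 (hA2 g h)
      rw [← hM] at h2
      push Not at h2
      show ε / 2 * n ≤ |(∫ t in (0 : ℝ)..n, V (pr Γ (fl Γ t (mkX Γ g)))) - f (mkX Γ g) * n|
      rw [h1]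
      refine le_trans ?_ (le_abs_self _)
      have h3 : f (mkX Γ g) < M - ε := hx1
      have h4 : (0 : ℝ) ≤ n := Nat.cast_nonneg n
      have h5 : f (mkX Γ g) * n ≤ (M - ε) * n := mul_le_mul_of_nonneg_right h3.le h4
      nlinarith

/-- the end of the proof: `μ E + μ L ≤ 1` for `E = {f < M - ε}` -/
theorem UPQ_end {X : Type} [MeasurableSpace X] (μ : Measure X) [IsProbabilityMeasure μ] (f : X → ℝ) (M ε L : ℝ) (hf : Measurable f)
    (hf01 : ∀ x, 0 ≤ f x ∧ f x ≤ 1) (hε : 0 < ε) (hL0 : 0 ≤ L) (hL : μ.real {x | f x < M - ε} + L ≤ 1) : L * M ≤ ∫ x, f x ∂μ + ε := by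
  have hint : Integrable f μ := by
    refine Integrable.of_bound hf.aestronglyMeasurable 1 (Filter.Eventually.of_forall fun x => ?_)
    rw [Real.norm_eq_abs, abs_of_nonneg (hf01 x).1]
    exact (hf01 x).2
  have hI0 : 0 ≤ ∫ x, f x ∂μ := integral_nonneg fun x => (hf01 x).1
  have hE0 : 0 ≤ μ.real {x | f x < M - ε} := measureReal_nonneg
  have hL1 : L ≤ 1 := by linarith
  rcases le_total (M - ε) 0 with h | h
  · nlinarith
  · have hE : MeasurableSet {x | f x < M - ε} := measurableSet_lt hf measurable_const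
    have h1 : μ.real {x | f x < M - ε}ᶜ = 1 - μ.real {x | f x < M - ε} := probReal_compl_eq_one_sub hE
    have h2 : (M - ε) * μ.real {x | f x < M - ε}ᶜ ≤ ∫ x in {x | f x < M - ε}ᶜ, f x ∂μ := by
      have h3 : ∫ x in {x | f x < M - ε}ᶜ, (M - ε) ∂μ = (M - ε) * μ.real {x | f x < M - ε}ᶜ := by
        rw [setIntegral_const, smul_eq_mul, mul_comm]
      rw [← h3]
      refine setIntegral_mono_on (integrableOn_const (measure_ne_top μ _)) hint.integrableOn hE.compl ?_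
      intro x hx
      have : ¬ f x < M - ε := hx
      linarith
    have h4 : ∫ x in {x | f x < M - ε}ᶜ, f x ∂μ ≤ ∫ x, f x ∂μ := setIntegral_le_integral hint (Filter.Eventually.of_forall fun x => (hf01 x).1)
    have h5 : (M - ε) * L ≤ (M - ε) * μ.real {x | f x < M - ε}ᶜ := mul_le_mul_of_nonneg_left (by linarith) h
    nlinarith

theorem UPQ_proof (hLPQ : LPQ_stmt) (hLDB : LDB_stmt) (hMEV : MEV_stmt) (hXFL : EN.XFL_stmt) : UPQ_stmt := by
  intro Γ F μ K a V hΓ hF hμ hinv hK hGP ha0 ha1 hVc hV01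
  obtain ⟨f, hf, hf01, hfi, hfI, hfc⟩ := hMEV Γ μ V hΓ hμ hinv hVc hV01
  rw [← hfI]
  apply le_of_forall_pos_le_add
  intro ε hε
  obtain ⟨c, hc, hc1, hCO⟩ := UPQ_cov hLDB hXFL Γ F μ V f _ ε hΓ hF hμ hVc rfl hε hfi hfc
  have h1 := hLPQ Γ μ K a (1 - c) _ hΓ hμ hinv hK hGP ha0 (by linarith) (by linarith) (by linarith) (by linarith) hCO
  exact UPQ_end μ f _ ε _ hf hf01 hε measureReal_nonneg h1

end

end Pool.Agent.LP
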